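import Pool.Agent.V5helper57.OT.Stm

/-!
# PROJECT OT, job NIL: nilpotent 2 x 2 matrices

Written by helper18.
-/

set_option autoImplicit false

open Matrix

namespace Pool.Agent.V5helper18.OT.NIL

open Pool.Agent.V5helper57.OT

theorem t_NIL : S_NIL := by
  intro K _ h2
  refine ⟨?_, ?_⟩
  · intro T hT
    have e00 := congrFun (congrFun hT 0) 0
    have e01 := congrFun (congrFun hT 0) 1
    have e10 := congrFun (congrFun hT 1) 0
    have e11 := congrFun (congrFun hT 1) 1
    simp only [Matrix.mul_apply, Fin.sum_univ_two, Matrix.zero_apply] at e00 e01 e10 e11
    have htr : T 0 0 + T 1 1 = 0 := by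
      by_contra hne
      have hb : T 0 1 = 0 := by
        have : T 0 1 * (T 0 0 + T 1 1) = 0 := by linear_combination e01
        exact (mul_eq_zero.mp this).resolve_right hne
      have ha : T 0 0 = 0 := by
        have : T 0 0 * T 0 0 = 0 := by rw [hb] at e00; linear_combination e00
        exact mul_self_eq_zero.mp this
      have hd : T 1 1 = 0 := by
        have : T 1 1 * T 1 1 = 0 := by rw [hb] at e11; linear_combination e11
        exact mul_self_eq_zero.mp this
      exact hne (by rw [ha, hd, add_zero])
    have hd : T 1 1 = -T 0 0 := by linear_combination htr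
    by_cases hb : T 0 1 = 0
    · have ha : T 0 0 = 0 := by
        have : T 0 0 * T 0 0 = 0 := by rw [hb] at e00; linear_combination e00
        exact mul_self_eq_zero.mp this
      refine ⟨-T 1 0, ![0, 1], ?_, ?_⟩
      · intro h
        have := congrFun h 1
        simp at this
      · ext i j
        fin_cases i <;> fin_cases j
        · simp [ha]
        · simp [hb]
        · simp
        · simp [hd, ha]
    · refine ⟨1 / T 0 1, ![T 0 1, -T 0 0], ?_, ?_⟩
      · intro h
        have := congrFun h 0
        simp at this
        exact hb this
      · ext i j
        fin_cases i <;> fin_cases j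
        · simp
          field_simp
        · simp
          field_simp
        · simp
          field_simp
          linear_combination e00
        · simp [hd]
          field_simp
  · intro M v lam htr hv hM
    have e00 := congrFun (congrFun hM 0) 0
    have e01 := congrFun (congrFun hM 0) 1
    have e10 := congrFun (congrFun hM 1) 0
    have e11 := congrFun (congrFun hM 1) 1
    have hd : M 1 1 = -M 0 0 := by
      rw [Matrix.trace_fin_two] at htr
      linear_combination htr
    simp [Matrix.mul_apply, Matrix.vecMul, dotProduct, Fin.sum_univ_two, hd] at e00 e01 e10 e11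
    have hvv : v 0 ≠ 0 ∨ v 1 ≠ 0 := by
      by_contra hcon
      push Not at hcon
      apply hv
      ext i
      fin_cases i
      · exact hcon.1
      · exact hcon.2
    have key : 2 * (M 0 0 * v 0 + M 0 1 * v 1) = lam * v 0 ∧
        2 * (M 1 0 * v 0 - M 0 0 * v 1) = lam * v 1 := by
      rcases hvv with h0 | h1
      · have c0 : 2 * (M 0 0 * v 0 + M 0 1 * v 1) = lam * v 0 := by
          apply mul_left_cancel₀ h0
          linear_combination e01
        refine ⟨c0, ?_⟩
        apply mul_left_cancel₀ h0
        linear_combination 2 * e11 - v 1 * c0
      · have c1 : 2 * (M 1 0 * v 0 - M 0 0 * v 1) = lam * v 1 := by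
          apply mul_left_cancel₀ h1
          linear_combination -e10
        refine ⟨?_, c1⟩
        apply mul_left_cancel₀ h1
        linear_combination 2 * e11 - v 0 * c1
    ext i
    fin_cases i
    · simp
      linear_combination key.1
    · simp [hd]
      linear_combination key.2

end Pool.Agent.V5helper18.OT.NIL
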